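import Pool.Agent.TH192.MT.IdJet

set_option autoImplicit false

/-! # The motivic monodromy conjecture for products of determinantal ideals

Let `x` be the generic matrix of one of the three spaces `S` of matrices: all `m × n` matrices, the
symmetric `n × n` matrices, the skew symmetric `n × n` matrices (`MSpace`). For `t < T` let `I_t` be
the ideal of the `p t`-minors of `x` (of the Pfaffians of size `2 (p t)` in the skew symmetric case),
`p t < min (m, n)`, `p t < n`, or `2 (p t) + 1 < n` (`Small`), and let `I = ∏ t, I_t`, generated by
the products of one minor for each `t` (`detProd`, with integral coefficients).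

The local motivic zeta function of `I` at the origin is `𝕃 ^ (-n) ∑_{N ≥ 1} [𝒳_N] 𝕃 ^ (-n N) T ^ N`
(`zetaJ`), `𝒳_N` the set of the `N`-jets with origin `0` on which `I` has the order
`N`; by the change of variables formula this is the function defined with a principalization. It is
defined in the Grothendieck ring of complex varieties, localised at `𝕃`. No principalization is
used: the jets of `x` are divided by the orders of the ideals of the minors; where an entry (or,
for symmetric and skew symmetric matrices, a principal minor of size `1` or `2`) is a unit, the
Schur complement reduces to a smaller matrix; where `x(0) = 0` one divides by `t`, which gives the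
denominators `1 - 𝕃 ^ (-ν_d) T ^ (N_d)`, `ν_d` the codimension of the matrices of rank `≤ d`
(`≤ 2 d`), `N_d = ∑ t, max (p t - d, 0)`.

The proof for the roots: the exceptional divisors `E_d` over the rank loci are Rees divisors of `I`,
the functional equation is lifted to a chart at a general point of `E_d`, and its terms are compared
along `E_d`. -/

namespace Pool.Agent.Results.MP_4e5fcd_ag.DeterminantalIdeals

open MvPolynomial Pool.Agent.W574.LM Pool.Agent.TH192.DT Pool.Agent.TH192.MT
  Pool.Agent.W428.MOT

/-- **The motivic monodromy conjecture at the origin for `I = ∏ t, I_t`**, `I_t` the ideal of the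
minors of size `p t` of a generic, symmetric or skew symmetric matrix. The finite set
`detPairs S p 1` of the pairs `(-ν_d, N_d)` has the two properties: `-ν_d / N_d` is a root of every `b`
for which `H b(∑ s_j) ∏ f_j ^ s_j` satisfies a functional equation of Budur, Mustata and Saito
(`IsLocEq`) with some `H`, `H(0) ≠ 0`, the `f_j` being the products of one minor for each `t`, in
particular of the local Bernstein-Sato polynomial of `I` at the origin (by the theorem of Budur,
Mustata and Saito, `exp(-2 π i ν_d / N_d)` is an eigenvalue of the Verdier monodromy of `I` at a
point over each neighbourhood of the origin); and the local motivic zeta function of `I` at the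
origin lies in the ring generated by `T` and the `1 / (1 - 𝕃 ^ (-ν_d) T ^ (N_d))`. -/
theorem result (S : MSpace) (T : ℕ) (p : Fin T → ℕ) (hp : ∀ t, S.Small (p t)) :
    (∀ q ∈ detPairs S p (fun _ => 1), q.1 < 0 ∧ 0 < q.2 ∧
      ∀ (b : Polynomial ℂ) (H : MvPolynomial S.Var ℂ), constantCoeff H ≠ 0 →
        IsLocEq H (fun j => map (Int.castRingHom ℂ) (detProd S p j)) b →
          b.eval ((q.1 : ℂ) / q.2) = 0) ∧
    zetaJ (fun j => map (Int.castRingHom ℂ) (detProd S p j)) ∈
      ratRing ℂ (detPairs S p (fun _ => 1) : Set (ℤ × ℤ)) :=
  ⟨prod_roots S T p hp, zetaJ_mem S T p hp⟩

end Pool.Agent.Results.MP_4e5fcd_ag.DeterminantalIdeals
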