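import Mathlib
import Pool.Agent.TH216.LX.Lx5

/-!
# The motivic monodromy conjecture at the origin for ideals with generic coefficients at the vertices

Let `I = (f_1, ..., f_r)`, `f_i = ∑_{π j = i} c_j x ^ (m_j) + h_i`, where the `h_i` are ARBITRARY
polynomials over a subfield `F` of `ℂ` (`F = ℂ` is allowed), with exponents in the Newton polyhedron
`conv {m_j, π j = i} + ℝ_{≥ 0} ^ n`, and the coefficients `c_j` are generic: `g(c) ≠ 0` for a certain
nonzero polynomial `g` with coefficients in `F`, which depends on the `m_j` and `h_i` only. So for
given `h_i` only the coefficients at the vertices of the Newton polyhedra of the `f_i` have to be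
generic. There is no condition on `r`, `n`, on the exponents of the `h_i` on the facets, or on the
singularities of `V(I)`, and `V(I)` need not be a complete intersection.

The facets of the Newton polyhedron of `∑ y_i f_i` which are pyramids with an apex `y_i x ^ (m_j)` do
not contribute (these are the facets of the mixed subdivisions for which one of the initial forms is a
monomial). For the others, assume that the candidate pole is shared with a facet which contains a
suitable simplex which is not B1, or that at every vertex the facets of the candidate pole are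
simplices or `B1`-facets in a common direction (or simplices or pyramids as above). Then the local
motivic zeta function of `I` at the origin lies in the ring generated by `T` and finitely many
`1 / (1 - 𝕃 ^ a T ^ b)` with `a < 0 < b` and `a / b` a root of the local Bernstein-Sato polynomial of
the ideal `I` (Budur, Mustata and Saito) at the origin.

Method. The jets of `(x, y)` on which `g = ∑ y_i f_i` has order `N` and leading coefficient `1`, with
`x(0) = 0` and `y` arbitrary, give `(1 - 𝕃 ^ (-1) T) Z_g = 𝕃 ^ (r - 1) Z_I`, with no division by
`𝕃 - 1`. If the `c_j` are algebraically independent over `F`, the Bernstein-Sato polynomial of `I` gives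
a functional equation of `g`, and an identity in a polynomial ring with one variable for every
`c_j`, which is turned into a multiplicative identity for the series
`∑_u q ^ (-|u|) F (⟨u, v_1⟩ - t, …, ⟨u, v_ℓ⟩ - t)`, `F` a difference polynomial applied to the Heaviside
function of the orthant, for every integer `q ≥ 2`. For the arcs with `x(0) = 0` only the points `u`
with `u i > 0` for the variables `x_i` occur, which see only monomials of the `y_i h_i` in the convex
hull of the `v_j`. The classes of the zero sets of the face
polynomials in the tori satisfy one linear relation for each variable which has exponent `1` in one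
monomial of a face and does not occur in the others. The possible `F` form an intersection of ideals;
because every monomial of `g` has exactly one factor `y_i`, with exponent `1`, this intersection is
contained in a product of ideals, one for each `y_i`, and localises at the pyramids to the ideal of
the identities. Gröbner bases in the Weyl algebra over `F(c_1, …, c_ℓ)` compare the generic
Bernstein-Sato polynomial with the one of a single member; at `-1` the multiplicity two of the root of
`(s + 1) b_I(s)` is used.
-/

set_option autoImplicit false

namespace Pool.Agent.Results.MP_4e5fcd_ag.GenericVerticesIdeals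

open MvPolynomial Pool.Agent.W428.MOT Pool.Agent.W749.JI Pool.Agent.TH216.HDI
open Pool.Agent.TH216.HDIL

/-- **The motivic monodromy conjecture at the origin (Bernstein-Sato form) for the ideals
`(f_1, ..., f_r)`, `f_i = ∑_{π j = i} c_j x ^ (m_j) + h_i` with generic coefficients `c_j`.**

`gens π m c h i` is the polynomial `f_i`. `InPolyI π m h` says that the exponents of `h_i` are in the
Newton polyhedron `conv {m_j, π j = i} + ℝ_{≥ 0} ^ n`. `cay π m j = (m_j, e_{π j})` are the exponents
of the monomials `y_{π j} x ^ (m_j)`. Write `v j` for `cay π m j`.

`HypIL v` says that for every ray `a ∈ ℕ ^ (n + r)` of the normal fan of the Newton polyhedron of the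
`v j` (`IsRay v a`) with `N_a := ordA v a = min_j ⟨a, v j⟩ > 0` one of the following holds:
* `YApexL v a`: for some `i`, `a_{n + i} ≠ 0` and exactly one of the `v j` on the facet of `a`
  (`⟨a, v j⟩ = N_a`) contains the variable `y_i`;
* `|a| / N_a = |a'| / N_{a'}` for some `a' ∈ ℕ ^ (n + r)` with `N_{a'} > 0` and `NonB1 v True a'`: there
  is a set `J` of `#{i | a' i ≠ 0}` elements with `⟨a', v j⟩ = N_{a'}` for `j ∈ J` such that the vectors
  `(v j i)_{a' i ≠ 0}`, `j ∈ J`, are linearly independent, such that no variable (number `i`) with
  `a' i ≠ 0` occurs in exactly one of the monomials `v j`, `j ∈ J`, and there with exponent `1`,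
  and such that (a condition only if some `a' i = 0`) for all `l` with `⟨a', v l⟩ = N_{a'}`, if `v l`
  agrees with `∑_{j ∈ J} c_j (v j)` in the coordinates `i` with `a' i ≠ 0`, then
  `∑_j c_j s(v j) ≤ s(v l)`, `s(w) = ∑_{a' i = 0} w_i`;
* `LocIL v σ` for `σ = lev v a = |a| / N_a`: for every `v j1`, EITHER there is a variable (an `x_i` or
  a `y_i`) such that each of the rays `a'` with `N_{a'} > 0`, `|a'| / N_{a'} = σ` and
  `⟨a', v j1⟩ = N_{a'}` (the facets through `v j1`) is a simplex (`SimpL v a'`: the vectors
  `(v j i)_{a' i ≠ 0}`, for the `j` with `⟨a', v j⟩ = N_{a'}`, are linearly independent) or B1 in the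
  direction of this variable (`B1L v i a'`: `a' i ≠ 0`, and exactly one of the `v j` on the facet
  contains the variable, with exponent `1`), OR each of these rays satisfies `SimpL v a'` or
  `YApexL v a'`.

`IsLocalBIdeal f b` says that `b(s_1 + ⋯ + s_r) ∏ f_i ^ s_i` satisfies a functional equation of
Budur, Mustata and Saito with differential operators with formal power series coefficients; the
local Bernstein-Sato polynomial `b_{I,0}` is one of these polynomials `b`. `zetaI` is
`𝕃 ^ (-n) ∑_{N ≥ 1} [𝒳_N] 𝕃 ^ (-n N) T ^ N` with `𝒳_N` the `N`-jets with origin `0` on which `I` has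
order `N`. -/
theorem result {ℓ r n : ℕ} (F : Subfield ℂ) (hℓ : 0 < ℓ) (π : Fin ℓ → Fin r)
    (m : Fin ℓ → Fin n → ℕ) (hinj : ∀ j j', π j = π j' → m j = m j' → j = j')
    (h : Fin r → MvPolynomial (Fin n) F) (hh : InPolyI π m h) (hL : HypIL (cay π m)) :
    ∃ g : MvPolynomial (Fin ℓ) F, g ≠ 0 ∧ ∀ c : Fin ℓ → ℂ, aeval c g ≠ 0 →
      ∃ S : Finset (ℤ × ℤ),
        (∀ p ∈ S, p.1 < 0 ∧ 0 < p.2 ∧ ∀ b : Polynomial ℂ, IsLocalBIdeal (gens π m c h) b →
          b.eval ((p.1 : ℂ) / p.2) = 0) ∧
        zetaI (gens π m c h) ∈ ratRing ℂ S := by
  obtain ⟨g, hg, hC⟩ := Pool.Agent.TH216.LX.ideal_genX (F := F) hℓ π m hinj h hh hL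
  refine ⟨g, hg, fun c hc => ?_⟩
  obtain ⟨S, hS, hz⟩ := hC ℂ c hc
  refine ⟨S, hS, ?_⟩
  have h1 := hz ℂ
  simp only [Algebra.algebraMap_self, MvPolynomial.map_id] at h1
  exact h1

end Pool.Agent.Results.MP_4e5fcd_ag.GenericVerticesIdeals
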