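import Mathlib
import Pool.Agent.TH216.ID.Id3

/-!
# The motivic monodromy conjecture at the origin for all sparse ideals

Let `I = (f_1, ..., f_r)`, `f_i = ∑_{π j = i} c_j x ^ (m_j)` with `c_j ≠ 0`, be an ideal of
`k[x_1, ..., x_n]`, `k ⊂ ℂ` a field, such that the vectors `(m_j, e_{π j})` are linearly independent
over `ℚ`. There is NO condition on the exponents: the Newton polyhedron of `∑ y_i f_i` may have
`B1`-facets and noncompact facets, `V(I)` may have nonisolated singularities and it need not be a
complete intersection. The local motivic zeta function of `I` at the origin,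
`𝕃 ^ (-n) ∑_{N ≥ 1} [𝒳_N] (𝕃 ^ (-n) T) ^ N` with `𝒳_N` the `N`-jets with origin `0` on which `I`
has order `N`, lies in the ring generated by `T` and finitely many `1 / (1 - 𝕃 ^ a T ^ b)` with
`a < 0 < b` and `a / b` a root of the local Bernstein-Sato polynomial of the ideal `I` at the
origin (Budur, Mustata and Saito).

Method. The jets of `(x, y)` on which `g = ∑ y_i f_i` has order `N` and leading coefficient `1`, with
`x(0) = 0` and `y` arbitrary, are affine bundles over the jets on which `I` has order at most `N`;
this gives `(1 - 𝕃 ^ (-1) T) Z_g = 𝕃 ^ (r - 1) Z_I` for the series `Z_g` of these jets, and there is no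
division by `𝕃 - 1`. The functional equation of the Bernstein-Sato polynomial of `I` gives an identity
for the monomials of `g`, which is turned into a multiplicative identity for the series
`∑_u q ^ (-|u|) F (⟨u, m_1⟩ - t, …, ⟨u, m_k⟩ - t)`, `F` a difference polynomial applied to the Heaviside
function of the orthant, for every integer `q ≥ 2`; at first only for the `u` which are far away from
the coordinate hyperplanes `u_v = 0`, then for all `u` by a recurrence in the distance. On the other
side, the classes of the zero sets of the face polynomials of `g` in the tori satisfy linear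
relations, one for each variable which has exponent `1` in one monomial of a face and does not occur
in the others; so `Z_g` is a combination of universal series in `q ^ (-1)` and `T`. The identity shows
that for every `q ≥ 2` these universal series have no poles on `log |T| / log q = σ` if `-σ` is not a
root, hence that the factors `1 - q ^ (-a) T ^ N` with `a / N = σ` cancel identically, and `q` can be
replaced by `𝕃`.
-/

set_option autoImplicit false

namespace Pool.Agent.Results.MP_4e5fcd_ag.LinearlyIndependentExponents

open MvPolynomial Pool.Agent.W428.MOT Pool.Agent.W749.JI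

/-- **The motivic monodromy conjecture at the origin (Bernstein-Sato form) for all ideals
`(f_1, ..., f_r)`, `f_i = ∑_{π j = i} c_j x ^ (m_j)`, with linearly independent vectors
`(m_j, e_{π j})`.**

`IsLocalBIdeal f b` says that `b(s_1 + ⋯ + s_r) ∏ f_i ^ s_i` satisfies a functional equation of
Budur, Mustata and Saito with differential operators with formal power series coefficients; the
local Bernstein-Sato polynomial `b_{I,0}` is one of these polynomials `b`. `zetaI` is
`𝕃 ^ (-n) ∑_{N ≥ 1} [𝒳_N] 𝕃 ^ (-n N) T ^ N` with `𝒳_N` the `N`-jets with origin `0` on which `I` has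
order `N`. The finite set `S` is the same for all the fields `K` which contain `k`. -/
theorem result (k : Type) [Field k] [Algebra k ℂ] {n ℓ r : ℕ} (hℓ : 0 < ℓ) (π : Fin ℓ → Fin r)
    (m : Fin ℓ → Fin n → ℕ) (c : Fin ℓ → k) (hc : ∀ j, c j ≠ 0)
    (hm : ∀ γ : Fin ℓ → ℚ, (∀ i, ∑ j, (if π j = i then γ j else 0) = 0) →
      (∀ v, ∑ j, γ j * m j v = 0) → ∀ j, γ j = 0) :
    ∃ S : Finset (ℤ × ℤ),
      (∀ p ∈ S, p.1 < 0 ∧ 0 < p.2 ∧ ∀ b : Polynomial ℂ,
        IsLocalBIdeal (fun i => ∑ j ∈ Finset.univ.filter (fun j => π j = i),
          C (algebraMap k ℂ (c j)) * ∏ v, X v ^ m j v) b → b.eval ((p.1 : ℂ) / p.2) = 0) ∧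
      ∀ (K : Type) [Field K] [Algebra k K],
        zetaI (fun i => ∑ j ∈ Finset.univ.filter (fun j => π j = i),
          C (algebraMap k K (c j)) * ∏ v, X v ^ m j v) ∈ ratRing K S :=
  Pool.Agent.TH216.ID.ideal_loc hℓ π m hm c hc

end Pool.Agent.Results.MP_4e5fcd_ag.LinearlyIndependentExponents
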