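import Mathlib
import Pool.Agent.TH216.ND.Nd5

/-!
# The motivic monodromy conjecture at the origin for nondegenerate ideals: conditions on the vertices

Let `I = (f_1, ..., f_r)`, `f_i = ∑_{π j = i} c_j x ^ (m_j)`, `c_j ≠ 0`, be an ideal of
`k[x_1, ..., x_n]`, `k ⊂ ℂ` a field, with generators which are nondegenerate with respect to their
Newton polytopes. There is no condition on `r`, `n` or the singularities of `V(I)`, and `V(I)` need not
be a complete intersection. The facets of the Newton polyhedron of `∑ y_i f_i` may be `B1`-facets (and
need not be simplices): facets which are pyramids with an apex `y_i x ^ (m_j)` are allowed without any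
condition; for the others it is assumed that the candidate pole is an integer, or is shared (modulo
integers) with a facet which contains a suitable simplex which is not B1, or that at every vertex the
facets of the candidate pole are simplices or `B1`-facets in a common direction. Here only the
vertices count: there is no condition on the further exponents of the `f_i`. Then the local motivic
zeta function of `I` at the origin lies in the ring generated by `T` and finitely many
`1 / (1 - 𝕃 ^ a T ^ b)` with `a < 0 < b` such that `a / b` is an integer or the local Bernstein-Sato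
polynomial of the ideal `I` at the origin (Budur, Mustata and Saito) has a root in `a / b + ℤ`; then
`exp (2 π i a / b)` is an eigenvalue of Verdier's monodromy at points over points near the origin.

Method. The jets of `(x, y)` on which `g = ∑ y_i f_i` has order `N` and leading coefficient `1`, with
`x(0) = 0` and `y` arbitrary, give `(1 - 𝕃 ^ (-1) T) Z_g = 𝕃 ^ (r - 1) Z_I`, with no division by
`𝕃 - 1`. The Bernstein-Sato polynomial of `I` gives a functional equation of the nondegenerate
polynomial `g`, which is extended to a family over `ℂ⟦τ⟧` with very general coefficients by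
Kouchnirenko's theorem; it gives an identity in a polynomial ring with one variable for every monomial,
is restricted to the vertices, and turned into a
multiplicative identity for the series `∑_u q ^ (-|u|) F (⟨u, v_1⟩ - t, …, ⟨u, v_ℓ⟩ - t)`, `F` a difference
polynomial applied to the Heaviside function of the orthant, for every integer `q ≥ 2`. For arcs with
`x(0) = 0` only the points `u` with `u i > 0` for the variables `x_i` occur, which see only monomials
in the convex hull of the vertices. The classes of
the zero sets of the face polynomials in the tori satisfy one linear relation for each variable which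
has exponent `1` in one monomial of a face and does not occur in the others; hence the universal
series have no poles on `log |T| / log q = σ` if no `-σ - i`, `i ∈ ℕ`, is a root.
-/

set_option autoImplicit false

namespace Pool.Agent.Results.MP_4e5fcd_ag.NondegenerateVerticesIdeals

open MvPolynomial Pool.Agent.W428.MOT Pool.Agent.W749.JI Pool.Agent.W423.NI Pool.Agent.TH216.HD
open Pool.Agent.TH216.HDNL

/-- **The motivic monodromy conjecture at the origin (Bernstein-Sato form modulo integers) for the
ideals `(f_1, ..., f_r)`, `f_i = ∑_{π j = i} c_j x ^ (m_j)`, which are nondegenerate with respect to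
the Newton polytopes of the `f_i` and satisfy `HypVIL`.**

`NondegI π m c` says that for every linear form `w` on `ℝ ^ n` and every nonempty set `Q` of indices
the parts of the `f_i`, `i ∈ Q`, on which `w` is minimal have no common zero in `(ℂ \ 0) ^ n` at
which their differentials are linearly dependent.

`cay π m j = (m_j, e_{π j})`, written `v j` below, are the exponents of `∑_i y_i f_i`. `V` is a set of
indices such that all the `v j` are in `conv {v j, j ∈ V} + ℝ_{≥ 0} ^ (n + r)` (`Spans v V`), for
instance the vertices of the Newton polyhedron.

`HypVIL v V` says that for every ray `a ∈ ℕ ^ (n + r)` of the normal fan of the Newton polyhedron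
(`IsRay v a`) with `N_a := ordA v a = min_j ⟨a, v j⟩ > 0` one of the following holds:
* `YApexVL v V a`: for some `i`, `a_{n + i} ≠ 0` and exactly one of the `v j`, `j ∈ V`, on the facet
  (`⟨a, v j⟩ = N_a`) contains the variable `y_i`;
* `N_a` divides `|a|` (the candidate pole is an integer);
* `|a| / N_a - |a'| / N_{a'} ∈ ℤ` for some `a'` with `N_{a'} > 0` and `NonB1 v True a'`: there is a
  set `J` of `#{i | a' i ≠ 0}` elements with `⟨a', v j⟩ = N_{a'}` for `j ∈ J` such that the vectors
  `(v j i)_{a' i ≠ 0}`, `j ∈ J`, are linearly independent, such that no variable (number `i`) with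
  `a' i ≠ 0` occurs in exactly one of the monomials `v j`, `j ∈ J`, and there with exponent `1`,
  and such that (a condition only if some `a' i = 0`) for all `l` with `⟨a', v l⟩ = N_{a'}`, if `v l`
  agrees with `∑_{j ∈ J} c_j (v j)` in the coordinates `i` with `a' i ≠ 0`, then
  `∑_j c_j s(v j) ≤ s(v l)`, `s(w) = ∑_{a' i = 0} w_i`;
* `LocVIL v V σ` for `σ = lev v a = |a| / N_a`: for every `j1 ∈ V`, EITHER there is a variable (an
  `x_i` or a `y_i`) such that each of the rays `a'` with `N_{a'} > 0`, `|a'| / N_{a'} = σ` and
  `⟨a', v j1⟩ = N_{a'}` (the facets through `v j1`) is a simplex (`SimpVL v V a'`: the vectors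
  `(v j i)_{a' i ≠ 0}`, for the `j ∈ V` with `⟨a', v j⟩ = N_{a'}`, are linearly independent) or B1 in
  the direction of this variable (`B1VL v V i a'`: `a' i ≠ 0`, and exactly one of the `v j`, `j ∈ V`,
  on the facet contains the variable, with exponent `1`), OR each of these rays satisfies
  `SimpVL v V a'` or `YApexVL v V a'`.

`IsLocalBIdeal f b` says that `b(s_1 + ⋯ + s_r) ∏ f_i ^ s_i` satisfies a functional equation of
Budur, Mustata and Saito with differential operators with formal power series coefficients; the
local Bernstein-Sato polynomial `b_{I,0}` is one of these polynomials `b`. `zetaI` is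
`𝕃 ^ (-n) ∑_{N ≥ 1} [𝒳_N] 𝕃 ^ (-n N) T ^ N` with `𝒳_N` the `N`-jets with origin `0` on which `I` has
order `N`. The finite set `S` is the same for all the fields `K` which contain `k`. -/
theorem result (k : Type) [Field k] [Algebra k ℂ] {n ℓ r : ℕ} (hℓ : 0 < ℓ) (π : Fin ℓ → Fin r)
    (m : Fin ℓ → Fin n → ℕ) (hinj : ∀ j j', π j = π j' → m j = m j' → j = j')
    (c : Fin ℓ → k) (hc : ∀ j, c j ≠ 0)
    (hnd : NondegI π m (fun j => algebraMap k ℂ (c j))) (V : Finset (Fin ℓ))
    (hV : Spans (cay π m) V) (hL : HypVIL (cay π m) V) :
    ∃ S : Finset (ℤ × ℤ),
      (∀ p ∈ S, p.1 < 0 ∧ 0 < p.2 ∧ (p.2 ∣ p.1 ∨ ∀ b : Polynomial ℂ,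
        IsLocalBIdeal (fun i => ∑ j ∈ Finset.univ.filter (fun j => π j = i),
          C (algebraMap k ℂ (c j)) * ∏ v, X v ^ m j v) b →
            ∃ i : ℤ, b.eval ((p.1 : ℂ) / p.2 - i) = 0)) ∧
      ∀ (K : Type) [Field K] [Algebra k K],
        zetaI (fun i => ∑ j ∈ Finset.univ.filter (fun j => π j = i),
          C (algebraMap k K (c j)) * ∏ v, X v ^ m j v) ∈ ratRing K S :=
  Pool.Agent.TH216.ND.nd_idealX hℓ π m hinj c hc hnd V hV hL

end Pool.Agent.Results.MP_4e5fcd_ag.NondegenerateVerticesIdeals
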